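import Pool.Agent.H11.KT.Targets

/-!
# MP_0b603e_al: row K_LL (the counting lemma for products of conjugates)
-/

set_option autoImplicit false

open scoped commutatorElement

namespace Pool.Agent.H81.KT

open Pool.Agent.H11.EL Pool.Agent.H11.KT

private theorem ll_sq_mul {G : Type} [Group G] {n : ℕ} {M : Subgroup G} (m u : Fin n → M) :
    (sq n (1 : G) fun i => (((m * u) i : M) : G)) =
      fun i => sq n (1 : G) (fun j => ((m j : M) : G)) i *
        sq n (1 : G) (fun j => ((u j : M) : G)) i := by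
  funext i
  unfold Pool.Agent.H11.EL.sq
  split_ifs with h
  · simp
  · simp

private theorem ll_num {c v N w d X : ℕ} (hX : 0 < X) (hc : 0 < c) (hv : 2 ≤ v)
    (hcv : c ≤ v ^ (d + 1)) (hw : w * v ^ (2 * (d + 3)) ≤ X) (hN : N ≤ v ^ d * w)
    (h : ((X : ℝ) / c - N) ^ 2 ≤ (w : ℝ) * X) : False := by
  have hX' : (0 : ℝ) < X := by exact_mod_cast hX
  have hc' : (0 : ℝ) < c := by exact_mod_cast hc
  have hv' : (2 : ℝ) ≤ v := by exact_mod_cast hv
  have hv0 : (0 : ℝ) < v := by linarith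
  have hcv' : (c : ℝ) ≤ (v : ℝ) ^ (d + 1) := by exact_mod_cast hcv
  have hw' : (w : ℝ) * (v : ℝ) ^ (2 * (d + 3)) ≤ X := by exact_mod_cast hw
  have hN' : (N : ℝ) ≤ (v : ℝ) ^ d * w := by exact_mod_cast hN
  set y : ℝ := (X : ℝ) / c with hy
  have hyc : y * c = X := by rw [hy]; field_simp
  have hy0 : 0 < y := by rw [hy]; positivity
  have h1 : (X : ℝ) ≤ y * (v : ℝ) ^ (d + 1) := by
    rw [← hyc]
    exact mul_le_mul_of_nonneg_left hcv' hy0.le
  have h2 : (N : ℝ) * (v : ℝ) ^ (d + 6) ≤ X := by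
    calc (N : ℝ) * (v : ℝ) ^ (d + 6) ≤ ((v : ℝ) ^ d * w) * (v : ℝ) ^ (d + 6) :=
          mul_le_mul_of_nonneg_right hN' (by positivity)
      _ = (w : ℝ) * (v : ℝ) ^ (2 * (d + 3)) := by
          rw [show 2 * (d + 3) = d + (d + 6) by ring, pow_add]; ring
      _ ≤ X := hw'
  have h3 : (X : ℝ) * (v : ℝ) ^ 5 ≤ y * (v : ℝ) ^ (d + 6) := by
    calc (X : ℝ) * (v : ℝ) ^ 5 ≤ (y * (v : ℝ) ^ (d + 1)) * (v : ℝ) ^ 5 :=
          mul_le_mul_of_nonneg_right h1 (by positivity)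
      _ = y * (v : ℝ) ^ (d + 6) := by
          rw [show d + 6 = (d + 1) + 5 by ring, pow_add (v : ℝ) (d + 1) 5]; ring
  have h4 : (v : ℝ) ^ 3 + 1 < (v : ℝ) ^ 5 := by
    have e : (v : ℝ) ^ 5 = (v : ℝ) ^ 3 * (v : ℝ) ^ 2 := by ring
    have e2 : (4 : ℝ) ≤ (v : ℝ) ^ 2 := by nlinarith
    have e3 : (1 : ℝ) ≤ (v : ℝ) ^ 3 := one_le_pow₀ (by linarith)
    rw [e]
    nlinarith
  have h5 : (X : ℝ) * (v : ℝ) ^ 3 < (y - N) * (v : ℝ) ^ (d + 6) := by nlinarith
  have h6 : (X : ℝ) < (y - N) * (v : ℝ) ^ (d + 3) := by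
    have h7 : (X : ℝ) * (v : ℝ) ^ 3 < ((y - N) * (v : ℝ) ^ (d + 3)) * (v : ℝ) ^ 3 := by
      calc (X : ℝ) * (v : ℝ) ^ 3 < (y - N) * (v : ℝ) ^ (d + 6) := h5
        _ = ((y - N) * (v : ℝ) ^ (d + 3)) * (v : ℝ) ^ 3 := by
          rw [show d + 6 = (d + 3) + 3 by ring, pow_add (v : ℝ) (d + 3) 3]; ring
    exact lt_of_mul_lt_mul_right h7 (by positivity)
  have h8 : (X : ℝ) ^ 2 < ((y - N) * (v : ℝ) ^ (d + 3)) ^ 2 :=
    pow_lt_pow_left₀ h6 hX'.le (by norm_num)
  have h9 : ((y - N) * (v : ℝ) ^ (d + 3)) ^ 2 = (y - N) ^ 2 * (v : ℝ) ^ (2 * (d + 3)) := by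
    rw [mul_pow, ← pow_mul, mul_comm (d + 3) 2]
  have h10 : (y - N) ^ 2 * (v : ℝ) ^ (2 * (d + 3)) ≤ (X : ℝ) ^ 2 := by
    calc (y - N) ^ 2 * (v : ℝ) ^ (2 * (d + 3)) ≤ ((w : ℝ) * X) * (v : ℝ) ^ (2 * (d + 3)) :=
          mul_le_mul_of_nonneg_right h (by positivity)
      _ = ((w : ℝ) * (v : ℝ) ^ (2 * (d + 3))) * X := by ring
      _ ≤ (X : ℝ) * X := mul_le_mul_of_nonneg_right hw' hX'.le
      _ = (X : ℝ) ^ 2 := by ring
  rw [h9] at h8
  linarith

theorem pf_LL (hBL : K_BL) (hBC : K_BC) (hBM : K_BM) (hND : K_ND) (hRA : T_RA) (hMO : T_MO)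
    (hBA : K_BA) (hSZ : T_SZ) (hLM : K_LM) : K_LL := by
  intro G _ _ M Z hCF hZ d s hs n t hab hcnt κ hκ
  have hle : Z ≤ M := hCF.lt.le
  have cc : ∀ x ∈ M, ∀ y ∈ M, ∀ g : G, ⁅x, y⁆ * g = g * ⁅x, y⁆ := fun x hx y hy g =>
    hZ _ (hCF.cM (Subgroup.commutator_mem_commutator hx hy)) g
  by_contra hno
  push Not at hno
  -- the groups
  let X := Fin n → M
  let T : X → M := fun m => ⟨Ps n t (sq n (1 : G) fun i => ((m i : M) : G)),
    Ps_mem hCF.nM (fun i _ => sq_mem _ i)⟩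
  have hDM : ⁅M, M⁆ ≤ M := hCF.cM.trans hle
  let B : X → X → M := fun m u => ⟨Bs n t (sq n (1 : G) fun i => ((m i : M) : G))
    (sq n (1 : G) fun i => ((u i : M) : G)),
    hDM (hBC G M hCF.nM _ t _ _ (sq_mem _) (sq_mem _))⟩
  let D' : Subgroup M := (⁅M, M⁆).subgroupOf M
  let W : Subgroup X :=
    { carrier := {u | ∀ i : Fin n, ⁅((u i : M) : G), t i⁆ ∈ Z}
      mul_mem' := by
        intro u v hu hv i
        have e : ⁅(((u * v) i : M) : G), t i⁆ =
            ((u i : M) : G) * ⁅((v i : M) : G), t i⁆ * ((u i : M) : G)⁻¹ *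
              ⁅((u i : M) : G), t i⁆ := by
          rw [Pi.mul_apply, Subgroup.coe_mul]
          simp only [commutatorElement_def]
          group
        rw [e]
        exact Z.mul_mem (hCF.nZ.conj_mem _ (hv i) _) (hu i)
      one_mem' := by
        intro i
        have e : ⁅(((1 : X) i : M) : G), t i⁆ = 1 := by
          rw [Pi.one_apply, Subgroup.coe_one, commutatorElement_one_left]
        rw [e]
        exact Z.one_mem
      inv_mem' := by
        intro u hu i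
        have e : ⁅(((u⁻¹) i : M) : G), t i⁆ =
            ((u i : M) : G)⁻¹ * ⁅((u i : M) : G), t i⁆⁻¹ * (((u i : M) : G)⁻¹)⁻¹ := by
          rw [Pi.inv_apply, Subgroup.coe_inv]
          simp only [commutatorElement_def]
          group
        rw [e]
        exact hCF.nZ.conj_mem _ (Z.inv_mem (hu i)) _ }
  have h1 : ∀ δ ∈ D', ∀ y : M, δ * y = y * δ := by
    intro δ hδ y
    have h : (δ : G) ∈ ⁅M, M⁆ := hδ
    exact Subtype.ext (hZ _ (hCF.cM h) y)
  have h2 : ∀ m u : X, T (m * u) = T m * T u * B m u := by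
    intro m u
    apply Subtype.ext
    have h := hBL G M hCF.nM cc n t (sq n (1 : G) fun i => ((m i : M) : G))
      (sq n (1 : G) fun i => ((u i : M) : G)) (sq_mem _) (sq_mem _)
    rw [← ll_sq_mul] at h
    exact h
  have h3 : ∀ m u : X, B m u ∈ D' := fun m u =>
    hBC G M hCF.nM _ t _ _ (sq_mem _) (sq_mem _)
  have h4 : ∀ m m' u : X, B (m * m') u = B m u * B m' u := by
    intro m m' u
    apply Subtype.ext
    have h := hBM G M hCF.nM cc n t (sq n (1 : G) fun i => ((m i : M) : G))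
      (sq n (1 : G) fun i => ((m' i : M) : G)) (sq n (1 : G) fun i => ((u i : M) : G))
      (sq_mem _) (sq_mem _) (sq_mem _)
    rw [← ll_sq_mul] at h
    exact h
  have h5 : ∀ y : M, ∃ m : X, ∃ δ ∈ D', T m * δ = y := by
    intro y
    have hy : (y : G) ∈ ⁅M, (⊤ : Subgroup G)⁆ := by rw [hCF.top]; exact y.2
    obtain ⟨x, hx, δ, hδ, h⟩ := hLM G M hCF.nM n t hab y hy
    refine ⟨fun i => ⟨x i, hx i⟩, ⟨δ, hDM hδ⟩, hδ, ?_⟩
    apply Subtype.ext
    change Ps n t _ * δ = y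
    rw [← h]
    congr 1
    apply Ps_congr
    intro i hi
    rw [sq_lt _ _ hi]
  have h6 : ∀ u : X, u ∉ W → ∀ δ ∈ D', ∃ m : X, B m u = δ := by
    intro u hu δ hδ
    let φ : X →* M := MonoidHom.mk' (fun m => B m u) (fun m m' => h4 m m' u)
    let D0 : Subgroup G := φ.range.map M.subtype
    have hD0 : D0 ≤ ⁅M, M⁆ := by
      rintro _ ⟨_, ⟨m, rfl⟩, rfl⟩
      exact h3 m u
    by_cases hE : D0 = ⁅M, M⁆
    · have : (δ : G) ∈ D0 := by rw [hE]; exact hδ
      obtain ⟨e, ⟨m, hm⟩, he⟩ := this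
      refine ⟨m, ?_⟩
      have h : e = δ := Subtype.ext he
      rw [← h, ← hm]; rfl
    · exfalso
      apply hu
      have hlt : D0 < ⁅M, M⁆ := lt_of_le_of_ne hD0 hE
      have rad := hRA G M Z D0 hCF hZ hlt
      have key := hND G M Z D0 hCF.nM hCF.nZ hle cc hZ rad n t
        (sq n (1 : G) fun i => ((u i : M) : G)) (sq_mem _) (by
          intro x hx
          refine ⟨B (fun i => ⟨x i, hx i⟩) u, ⟨fun i => ⟨x i, hx i⟩, rfl⟩, ?_⟩
          apply Bs_congr
          · intro i hi; rw [sq_lt _ _ hi]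
          · intro i hi; rfl)
      intro i
      have h := key i i.2
      rw [sq_lt _ _ i.2] at h
      exact h
  have mo := hMO X M D' W T B h1 h2 h3 h4 h5 h6 ⟨κ, hκ⟩
  -- the numbers
  have hX : Nat.card X = Nat.card M ^ n := by
    change Nat.card (Fin n → M) = _
    rw [Nat.card_fun, Nat.card_eq_fintype_card (α := Fin n), Fintype.card_fin]
  have hN : Nat.card {m : X // T m = ⟨κ, hκ⟩} ≤ Z.relIndex M ^ d * Nat.card W := by
    refine le_trans ?_ (hBA G M Z hCF d s hs n t hab)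
    refine Nat.card_le_card_of_injective (fun m => ⟨m.1, ?_⟩) ?_
    · have := hno (sq n (1 : G) fun i => ((m.1 i : M) : G)) (sq_mem _) (congrArg Subtype.val m.2)
      exact this
    · intro m m' h
      apply Subtype.ext
      exact Subtype.mk.inj h
  have hcard : Nat.card M = Z.relIndex M * Nat.card Z := by
    have h := Subgroup.card_mul_index (Z.subgroupOf M)
    have e : Nat.card (Z.subgroupOf M) = Nat.card Z :=
      Nat.card_congr (Subgroup.subgroupOfEquivOfLe hle).toEquiv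
    rw [e] at h
    rw [← h, mul_comm]; rfl
  have hv : 2 ≤ Z.relIndex M := by
    have h0 : Z.relIndex M ≠ 0 := by
      intro h
      rw [h, zero_mul] at hcard
      exact Nat.card_pos.ne' hcard
    have h1 : Z.relIndex M ≠ 1 := by
      intro h
      rw [Subgroup.relIndex_eq_one] at h
      exact absurd h (not_le_of_gt hCF.lt)
    omega
  rw [hX] at mo
  exact ll_num (c := Nat.card M) (v := Z.relIndex M)
    (N := Nat.card {m : X // T m = ⟨κ, hκ⟩}) (w := Nat.card W) (d := d)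
    (X := Nat.card M ^ n) (pow_pos Nat.card_pos n) Nat.card_pos hv
    (hSZ G M Z hCF hZ d s hs) hcnt hN mo

end Pool.Agent.H81.KT
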