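import Pool.Agent.H49.KT.Targets

namespace Pool.Agent.H81.KT

open Pool.Agent.H49.KT

/-- bijective binary value -/
def val : List Bool → ℕ
  | [] => 0
  | false :: l => 2 * val l + 1
  | true :: l => 2 * val l + 2

theorem val_sc : ∀ l : List Bool, val (sc l) = val l + 1
  | [] => rfl
  | false :: l => rfl
  | true :: l => by
    show 2 * val (sc l) + 1 = 2 * val l + 2 + 1
    rw [val_sc l]; ring

theorem ds_succ (i : ℕ) : ds (i + 1) = sc (ds i) := Function.iterate_succ_apply' sc i []

theorem val_ds (i : ℕ) : val (ds i) = i := by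
  induction i with
  | zero => rfl
  | succ i ih => rw [ds_succ, val_sc, ih]

theorem val_inj : ∀ a b : List Bool, val a = val b → a = b
  | [], [] => fun _ => rfl
  | [], false :: l => fun h => by simp [val] at h
  | [], true :: l => fun h => by simp [val] at h
  | false :: l, [] => fun h => by simp [val] at h
  | true :: l, [] => fun h => by simp [val] at h
  | false :: l, false :: l' => fun h => by
    have : val l = val l' := by simp only [val] at h; omega
    rw [val_inj l l' this]
  | true :: l, true :: l' => fun h => by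
    have : val l = val l' := by simp only [val] at h; omega
    rw [val_inj l l' this]
  | false :: l, true :: l' => fun h => by simp only [val] at h; omega
  | true :: l, false :: l' => fun h => by simp only [val] at h; omega

theorem ds_val (D : List Bool) : ds (val D) = D := val_inj _ _ (val_ds _)

theorem val_bd : ∀ l : List Bool, 2 ^ l.length ≤ val l + 1 ∧ val l + 1 < 2 ^ (l.length + 1)
  | [] => ⟨le_refl _, by decide⟩
  | false :: l => by
    have := val_bd l
    simp only [val, List.length_cons]
    rw [pow_succ 2 l.length, pow_succ 2 (l.length + 1)]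
    omega
  | true :: l => by
    have := val_bd l
    simp only [val, List.length_cons]
    rw [pow_succ 2 l.length, pow_succ 2 (l.length + 1)]
    omega

theorem ds_bd (i : ℕ) : 2 ^ (ds i).length ≤ i + 1 ∧ i + 1 < 2 ^ ((ds i).length + 1) := by
  have := val_bd (ds i)
  rwa [val_ds] at this

theorem ds_le (i m : ℕ) (h : i < 2 ^ m) : (ds i).length ≤ m := by
  have h1 := (ds_bd i).1
  exact (Nat.pow_le_pow_iff_right (by norm_num : 1 < 2)).1 (h1.trans h)

theorem ds_ge (i m : ℕ) (h : 2 ^ m ≤ i) : m ≤ (ds i).length := by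
  have h1 := (ds_bd i).2
  have h2 : 2 ^ m < 2 ^ ((ds i).length + 1) := by omega
  have := (Nat.pow_lt_pow_iff_right (by norm_num : 1 < 2)).1 h2
  omega

theorem sum_ds (m : ℕ) :
    ∑ i ∈ Finset.range (2 ^ (m + 1)), 2 ^ (m - (ds i).length) ≤ (m + 2) * 2 ^ (m + 1) := by
  induction m with
  | zero =>
    simp
  | succ m ih =>
    have e : 2 ^ (m + 1 + 1) = 2 ^ (m + 1) + 2 ^ (m + 1) := by rw [pow_succ]; ring
    rw [e, Finset.sum_range_add]
    have h1 : ∑ i ∈ Finset.range (2 ^ (m + 1)), 2 ^ (m + 1 - (ds i).length) ≤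
        2 * ((m + 2) * 2 ^ (m + 1)) := by
      refine le_trans ?_ (Nat.mul_le_mul_left 2 ih)
      rw [Finset.mul_sum]
      refine Finset.sum_le_sum fun i _ => ?_
      rw [← pow_succ']
      exact Nat.pow_le_pow_right (by norm_num) (by omega)
    have h2 : ∑ i ∈ Finset.range (2 ^ (m + 1)), 2 ^ (m + 1 - (ds (2 ^ (m + 1) + i)).length) =
        2 ^ (m + 1) := by
      rw [Finset.sum_congr rfl (g := fun _ => 1)]
      · simp
      · intro i _
        have := ds_ge (2 ^ (m + 1) + i) (m + 1) (Nat.le_add_right _ _)
        rw [Nat.sub_eq_zero_of_le this, pow_zero]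
    rw [h2]
    generalize 2 ^ (m + 1) = K at *
    nlinarith

theorem pf_DS : T_DS := by
  refine ⟨?_, ds_le, sum_ds⟩
  intro D
  exact ⟨val D, ds_val D, (val_bd D).2⟩

end Pool.Agent.H81.KT
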