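import Pool.Agent.H49.KT.UTargets

namespace Pool.Agent.H81.KT

open Pool.Agent.H49.KT Pool.Agent.H49.KT.Uni Function Turing

/-- configurations of the universal machine -/
abbrev CU : Type := TM2.Cfg G2 (Option (Lab uprog)) (Me × Bool)

/-- the start stacks -/
def uIn (x : List Bool) : IO → List Bool := update (fun _ => []) .inp x

/-- the final stacks -/
def uOut (x : List Bool) : IO → List Bool := update (fun _ => []) .out x

theorem init_uni (x : List Bool) :
    (initList uni.tm (x.map uni.inputAlphabet.invFun) : CU) =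
      ⟨some (some (entry uprog)), (me₀, false), (mk2 me₀ (uIn x) e₀).S⟩ := by
  have hx : x.map uni.inputAlphabet.invFun = x := List.map_id x
  rw [hx]
  unfold initList
  congr 1
  funext k
  rcases k with k | y
  · by_cases h : k = IO.inp
    · subst h
      rfl
    · have h1 : (mk2 me₀ (uIn x) e₀).S (.inl k) = [] := by
        simp [uIn, h]
      rw [h1]
      refine dif_neg ?_
      intro h2
      exact h (Sum.inl_injective h2)
  · rfl

theorem halt_uni (x : List Bool) :
    (haltList uni.tm (x.map uni.outputAlphabet.invFun) : CU) =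
      ⟨none, (me₀, false), (mk2 me₀ (uOut x) e₀).S⟩ := by
  have hx : x.map uni.outputAlphabet.invFun = x := List.map_id x
  rw [hx]
  unfold haltList
  congr 1
  funext k
  rcases k with k | y
  · by_cases h : k = IO.out
    · subst h
      rfl
    · have h1 : (mk2 me₀ (uOut x) e₀).S (.inl k) = [] := by
        simp [uOut, h]
      rw [h1]
      refine dif_neg ?_
      intro h2
      exact h (Sum.inl_injective h2)
  · rfl

theorem outputs_uni {x y : List Bool} {v' : Me} {N t : ℕ}
    (h : Run uprog (mk2 me₀ (uIn x) e₀) (mk2 v' (uOut y) e₀) N) (ht : N + 1 ≤ t) :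
    uni.Outputs x y t := by
  have e := machine_run (i := (.inl .inp : IO ⊕ Nw)) (o := (.inl .out : IO ⊕ Nw)) (init := me₀)
    h rfl
  refine ⟨⟨⟨N + 1, ?_⟩, ht⟩⟩
  have e1 := init_uni x
  have e2 := halt_uni y
  show (flip bind (TM2.step (machine uprog (.inl .inp) (.inl .out) me₀).m))^[N + 1]
    (some (initList uni.tm (x.map uni.inputAlphabet.invFun) : CU)) =
    some (haltList uni.tm (y.map uni.outputAlphabet.invFun) : CU)
  rw [e1, e2]
  exact e

theorem encW_bool (d : List Bool) : (encW (d.map Bool.toNat)).length ≤ 3 * d.length := by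
  induction d with
  | nil => simp [encW]
  | cons b d ih =>
    have h1 : (encW ((b :: d).map Bool.toNat)).length =
        (encS b.toNat).length + (encW (d.map Bool.toNat)).length := by
      simp [encW]
    have h2 : (encS b.toNat).length ≤ 3 := by
      cases b <;> simp [encS]
    rw [h1, List.length_cons]
    omega

theorem encC_rep (j : ℕ) : (encC (List.replicate j [])).length = j := by
  induction j with
  | zero => rfl
  | succ j ih =>
    have : (encC (List.replicate (j + 1) [])).length = 1 + (encC (List.replicate j [])).length := by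
      simp [encC, encW, List.replicate_succ]
      omega
    rw [this, ih]; omega

theorem encC_L₀ (j k : ℕ) (d : List Bool) :
    (encC (L₀ j k d)).length ≤ j + k + 1 + 3 * d.length := by
  have h1 : encC (L₀ j k d) = encC (List.replicate j []) ++
      (Tok.ts :: encW (d.map Bool.toNat) ++ encC (List.replicate k [])) := by
    simp [encC, L₀]
  have h2 := encW_bool d
  rw [h1]
  simp only [List.length_append, List.length_cons, encC_rep]
  omega

theorem pf_MA : T_DEC → T_RUN → T_OUP → T_WFU → T_MA := by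
  intro hD hR hO hW B j k ng
  refine ⟨100 * ((codeU B j k ng).length + 1) + 1000 * ((encP B).length + (j + k + 4) + 1) +
    50 * ((j + k + 4) + 2 * (encP B).length + 1) + 1, ?_⟩
  intro d T s L hT
  obtain ⟨v1, hv1, h1⟩ := hD me₀ (uIn (codeU B j k ng ++ d)) B j k ng d rfl rfl rfl
  set Z : Nw → List Tok := update (update (update e₀ .prg (encP B))
        .cfg (encC (L₀ j k d))) .q [Tok.t1] with hZ
  set u1 : IO → List Bool := update (uIn (codeU B j k ng ++ d)) .inp [] with hu1
  obtain ⟨⟨v2, N2, hv2, h2, hN2⟩, hlen⟩ := hR v1 u1 Z B 1 T (L₀ j k d) (s :: L) hT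
    ⟨rfl, rfl, rfl, rfl, rfl, rfl, rfl, rfl⟩ rfl rfl rfl
  obtain ⟨v3, h3⟩ := hO v2 u1 (update (update Z .cfg (encC (s :: L))) .q []) s L rfl rfl rfl
  obtain ⟨N1, hN1, r1⟩ := Spec.run2 hW.2.1 h1
  obtain ⟨N3, hN3, r3⟩ := Spec.run2 hW.2.2 h3
  have hng : v2.ng = ng := by rw [← hv1]; exact hv2
  have hu : update u1 .out (s.map (fun y => (y != 0) != v2.ng)) =
      uOut (s.map (fun y => (y != 0) != ng)) := by
    rw [hng]
    funext y
    cases y <;> rfl
  have hz : update (update (update (update Z .cfg (encC (s :: L))) .q []) .cfg []) .prg [] =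
      e₀ := by
    funext y
    cases y <;> rfl
  rw [hu, hz] at r3
  have hrun := Run.seq r1 (Run.seq h2 r3)
  refine outputs_uni hrun ?_
  have hP : (update (update Z .cfg (encC (s :: L))) .q [] : Nw → List Tok) .prg = encP B := rfl
  rw [hP] at hN3
  have hE := encC_L₀ j k d
  generalize (codeU B j k ng).length = c0 at *
  generalize (encP B).length = P at *
  generalize (encC (L₀ j k d)).length = E at *
  generalize (encC (s :: L)).length = E' at *
  generalize d.length = D at *
  set m := T + D + 1 with hm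
  have hm1 : 1 ≤ m := by omega
  have hmm : m ≤ m ^ 2 := by nlinarith
  have hT1 : T + 1 ≤ m := by omega
  have hEm : E ≤ (j + k + 4) * m := by nlinarith
  have b1 : N1 ≤ 100 * (c0 + 1) * m ^ 2 := by
    have : c0 + D + 1 ≤ (c0 + 1) * m := by nlinarith
    calc N1 ≤ 100 * (c0 + D + 1) := hN1
      _ ≤ 100 * ((c0 + 1) * m) := Nat.mul_le_mul_left _ this
      _ ≤ 100 * ((c0 + 1) * m ^ 2) := Nat.mul_le_mul_left _ (Nat.mul_le_mul_left _ hmm)
      _ = 100 * (c0 + 1) * m ^ 2 := by ring
  have b2 : N2 ≤ 1000 * (P + (j + k + 4) + 1) * m ^ 2 := by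
    have : P * (T + 1) + E + 1 ≤ (P + (j + k + 4) + 1) * m := by
      have : P * (T + 1) ≤ P * m := Nat.mul_le_mul_left _ hT1
      nlinarith
    calc N2 ≤ 1000 * ((T + 1) * (P * (T + 1) + E + 1)) := hN2
      _ ≤ 1000 * (m * ((P + (j + k + 4) + 1) * m)) :=
        Nat.mul_le_mul_left _ (Nat.mul_le_mul hT1 this)
      _ = 1000 * (P + (j + k + 4) + 1) * m ^ 2 := by ring
  have b3 : N3 ≤ 50 * ((j + k + 4) + 2 * P + 1) * m ^ 2 := by
    have h5 : T * P ≤ m * P := Nat.mul_le_mul_right _ (by omega)
    have : E' + P + 1 ≤ ((j + k + 4) + 2 * P + 1) * m := by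
      have : P ≤ m * P := Nat.le_mul_of_pos_left _ hm1
      nlinarith
    calc N3 ≤ 50 * (E' + P + 1) := hN3
      _ ≤ 50 * (((j + k + 4) + 2 * P + 1) * m) := Nat.mul_le_mul_left _ this
      _ ≤ 50 * (((j + k + 4) + 2 * P + 1) * m ^ 2) :=
        Nat.mul_le_mul_left _ (Nat.mul_le_mul_left _ hmm)
      _ = 50 * ((j + k + 4) + 2 * P + 1) * m ^ 2 := by ring
  have hm2 : 1 ≤ m ^ 2 := le_trans hm1 hmm
  calc N1 + (N2 + N3) + 1 ≤ 100 * (c0 + 1) * m ^ 2 + (1000 * (P + (j + k + 4) + 1) * m ^ 2 +
        50 * ((j + k + 4) + 2 * P + 1) * m ^ 2) + m ^ 2 := by omega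
    _ = _ := by ring

end Pool.Agent.H81.KT
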