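import Pool.Agent.H49.KT.Targets

namespace Pool.Agent.H81.KT

open Pool.Agent.H49.KT

theorem en_cons (a : Bool) (c : List Bool) : en (a :: c) = true :: a :: en c := rfl

theorem en_nil : en [] = [false] := rfl

theorem foldl_en (c : List Bool) : ∀ cr pr : List Bool,
    (en c).foldl pstep ⟨0, cr, pr, 0, 0⟩ = ⟨2, c.reverse ++ cr, (en c).reverse ++ pr, 0, 0⟩ := by
  induction c with
  | nil => intro cr pr; simp [en_nil, pstep]
  | cons a c ih =>
    intro cr pr
    rw [en_cons, List.foldl_cons, List.foldl_cons]
    have h : pstep (pstep ⟨0, cr, pr, 0, 0⟩ true) a = ⟨0, a :: cr, a :: true :: pr, 0, 0⟩ := by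
      simp [pstep]
    rw [h, ih]
    simp

theorem bits_len (n : ℕ) : n.bits.length = n.size := Nat.size_eq_bits_len n

theorem foldl_bits (n : ℕ) : ∀ (cr pr : List Bool),
    (n.bits.reverse).foldl pstep ⟨2, cr, pr, 0, 0⟩ = ⟨2, cr, pr, n, n.bits.length⟩ := by
  induction n using Nat.binaryRec' with
  | zero => intro cr pr; simp
  | bit b n h ih =>
    intro cr pr
    rw [Nat.bits_append_bit n b h, List.reverse_cons, List.foldl_append, ih]
    simp only [List.foldl_cons, List.foldl_nil, pstep, List.length_cons]
    have : (2 : Fin 3) ≠ 0 := by decide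
    have h1 : (2 : Fin 3) ≠ 1 := by decide
    simp only [this, h1, if_false]
    congr 1
    rw [Nat.bit_val]

theorem prs_code (c : List Bool) (n : ℕ) :
    prs (code c n) = ⟨2, c.reverse, (en c).reverse, n, n.size⟩ := by
  unfold prs code
  rw [List.foldl_append, foldl_en, foldl_bits, bits_len]
  simp

/-- invariant of the parser -/
def Inv (s : PS) : Prop :=
  (s.mode = 0 → s.pr.reverse = s.cr.reverse.flatMap (fun b => [true, b])) ∧
  (s.mode = 1 → s.pr.reverse = s.cr.reverse.flatMap (fun b => [true, b])) ∧
  (s.mode = 2 → s.pr.reverse = en s.cr.reverse)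

theorem inv_step (s : PS) (a : Bool) (h : Inv s) : Inv (pstep s a) := by
  obtain ⟨h0, h1, h2⟩ := h
  unfold pstep
  by_cases m0 : s.mode = 0
  · rw [if_pos m0]
    cases a
    · refine ⟨?_, ?_, ?_⟩
      · intro h; simp at h
      · intro h; simp at h
      · intro _; simp [h0 m0, en]
    · refine ⟨?_, ?_, ?_⟩
      · intro h; simp at h
      · intro _; simpa using h0 m0
      · intro h; simp at h
  · rw [if_neg m0]
    by_cases m1 : s.mode = 1
    · rw [if_pos m1]
      refine ⟨?_, ?_, ?_⟩
      · intro _; simp [h1 m1]
      · intro h; simp at h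
      · intro h; simp at h
    · rw [if_neg m1]
      exact ⟨fun h => absurd h m0, fun h => absurd h m1, fun h => h2 h⟩

theorem inv_prs (x : List Bool) : ∀ s, Inv s → Inv (x.foldl pstep s) := by
  induction x with
  | nil => intro s h; exact h
  | cons a x ih => intro s h; exact ih _ (inv_step s a h)

theorem en_pre (c : List Bool) : ∀ c' w : List Bool, en c <+: w → en c' <+: w → c = c' := by
  induction c with
  | nil =>
    intro c' w h h'
    cases c' with
    | nil => rfl
    | cons b c' =>
      rw [en_nil] at h
      rw [en_cons] at h'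
      cases w with
      | nil => simp at h
      | cons a w =>
        rw [List.cons_prefix_cons] at h h'
        exact absurd (h.1.trans h'.1.symm) (by decide)
  | cons a c ih =>
    intro c' w h h'
    cases c' with
    | nil =>
      rw [en_nil] at h'
      rw [en_cons] at h
      cases w with
      | nil => simp at h
      | cons a w =>
        rw [List.cons_prefix_cons] at h h'
        exact absurd (h'.1.trans h.1.symm) (by decide)
    | cons b c' =>
      rw [en_cons] at h h'
      rcases w with _ | ⟨w1, _ | ⟨w2, w⟩⟩
      · simp at h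
      · rw [List.cons_prefix_cons] at h
        have := h.2
        simp at this
      · rw [List.cons_prefix_cons, List.cons_prefix_cons] at h h'
        rw [h.2.1, h'.2.1, ih c' w h.2.2 h'.2.2]

theorem en_len (c : List Bool) : (en c).length = 2 * c.length + 1 := by
  induction c with
  | nil => rfl
  | cons a c ih => rw [en_cons]; simp only [List.length_cons, ih]; ring

theorem pf_PRS : T_PRS := by
  refine ⟨prs_code, ?_, ?_, ?_⟩
  · intro x h
    have := inv_prs x ⟨0, [], [], 0, 0⟩ ⟨fun _ => rfl, fun _ => rfl, fun h => by simp at h⟩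
    exact this.2.2 h
  · intro c c' w h h'
    exact en_pre c c' w h h'
  · intro c n
    unfold code
    rw [List.length_append, en_len, List.length_reverse, bits_len]

end Pool.Agent.H81.KT
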