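import Pool.Agent.H49.KT.UTargets

namespace Pool.Agent.H81.KT

open Pool.Agent.H49.KT Pool.Agent.H49.KT.Uni

theorem pf_WFU : T_WFU := by
  refine ⟨?_, ?_, ?_⟩
  · simp [WF, Free, istep, pass1, pass2, pass3, pass4, body1, body2, body3, body4, Uni.lp, Uni.mv,
      pushr, pusht, popg, smode, Uni.skip]
  · simp [WF, Free, decode, body0, Uni.lp, Uni.mv, pushr, pusht]
  · simp [WF, Free, output, body5, Uni.lp, Uni.clr, pusht, smode, Uni.skip]

end Pool.Agent.H81.KT
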